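import Mathlib

set_option autoImplicit false

namespace Pool.Agent.Helper220.Q5

open Matrix

/-- the matrix of the symmetric traceless 4x4 matrix `2T-1` in the basis `q ↦ a q b` of
quaternionic maps -/
noncomputable def MM (T : Matrix (Fin 4) (Fin 4) ℂ) : Matrix (Fin 3) (Fin 3) ℂ :=
  !![(-T 0 0 - T 1 1 + T 2 2 + T 3 3) / 2, T 0 3 - T 1 2, -T 0 2 - T 1 3;
     -T 0 3 - T 1 2, (-T 0 0 + T 1 1 - T 2 2 + T 3 3) / 2, T 0 1 - T 2 3;
     T 0 2 - T 1 3, -T 0 1 - T 2 3, (-T 0 0 + T 1 1 + T 2 2 - T 3 3) / 2]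

theorem MM_all (m : Matrix (Fin 3) (Fin 3) ℂ) (m0101 : m 0 0 * m 1 1 = m 0 1 * m 1 0) (m0102 : m 0 0 * m 1 2 = m 0 2 * m 1 0) (m0112 : m 0 1 * m 1 2 = m 0 2 * m 1 1) (m0201 : m 0 0 * m 2 1 = m 0 1 * m 2 0) (m0202 : m 0 0 * m 2 2 = m 0 2 * m 2 0) (m0212 : m 0 1 * m 2 2 = m 0 2 * m 2 1) (m1201 : m 1 0 * m 2 1 = m 1 1 * m 2 0) (m1202 : m 1 0 * m 2 2 = m 1 2 * m 2 0) (m1212 : m 1 1 * m 2 2 = m 1 2 * m 2 1) :
    ∀ i j k l, m i j * m k l = m i l * m k j := by
  intro i j k l
  fin_cases i <;> fin_cases j <;> fin_cases k <;> fin_cases l <;>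
    first
    | rfl
    | exact mul_comm _ _
    | exact m0101
    | exact m0101.symm
    | exact (mul_comm _ _).trans (m0101.trans (mul_comm _ _))
    | exact (mul_comm _ _).trans (m0101.symm.trans (mul_comm _ _))
    | exact m0102
    | exact m0102.symm
    | exact (mul_comm _ _).trans (m0102.trans (mul_comm _ _))
    | exact (mul_comm _ _).trans (m0102.symm.trans (mul_comm _ _))
    | exact m0112
    | exact m0112.symm
    | exact (mul_comm _ _).trans (m0112.trans (mul_comm _ _))
    | exact (mul_comm _ _).trans (m0112.symm.trans (mul_comm _ _))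
    | exact m0201
    | exact m0201.symm
    | exact (mul_comm _ _).trans (m0201.trans (mul_comm _ _))
    | exact (mul_comm _ _).trans (m0201.symm.trans (mul_comm _ _))
    | exact m0202
    | exact m0202.symm
    | exact (mul_comm _ _).trans (m0202.trans (mul_comm _ _))
    | exact (mul_comm _ _).trans (m0202.symm.trans (mul_comm _ _))
    | exact m0212
    | exact m0212.symm
    | exact (mul_comm _ _).trans (m0212.trans (mul_comm _ _))
    | exact (mul_comm _ _).trans (m0212.symm.trans (mul_comm _ _))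
    | exact m1201
    | exact m1201.symm
    | exact (mul_comm _ _).trans (m1201.trans (mul_comm _ _))
    | exact (mul_comm _ _).trans (m1201.symm.trans (mul_comm _ _))
    | exact m1202
    | exact m1202.symm
    | exact (mul_comm _ _).trans (m1202.trans (mul_comm _ _))
    | exact (mul_comm _ _).trans (m1202.symm.trans (mul_comm _ _))
    | exact m1212
    | exact m1212.symm
    | exact (mul_comm _ _).trans (m1212.trans (mul_comm _ _))
    | exact (mul_comm _ _).trans (m1212.symm.trans (mul_comm _ _))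

theorem MM_minor (T : Matrix (Fin 4) (Fin 4) ℂ) (h1 : T * T = T) (h2 : Tᵀ = T)
    (h3 : T.trace = 2) (i j k l : Fin 3) :
    MM T i j * MM T k l = MM T i l * MM T k j := by
  have hs : ∀ i j, T j i = T i j := fun i j => congrFun (congrFun h2 i) j
  have heq : ∀ i j, ∑ k, T i k * T k j = T i j := fun i j => by
    have h := congrFun (congrFun h1 i) j
    rwa [Matrix.mul_apply] at h
  have s10 : T 1 0 = T 0 1 := hs 0 1
  have s20 : T 2 0 = T 0 2 := hs 0 2
  have s30 : T 3 0 = T 0 3 := hs 0 3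
  have s21 : T 2 1 = T 1 2 := hs 1 2
  have s31 : T 3 1 = T 1 3 := hs 1 3
  have s32 : T 3 2 = T 2 3 := hs 2 3
  have tr : T 0 0 + T 1 1 + T 2 2 + T 3 3 = 2 := by
    rw [← h3, Matrix.trace, Fin.sum_univ_four]
    rfl
  have a0 : T 0 0 = 2 - T 1 1 - T 2 2 - T 3 3 := by linear_combination tr
  have e00 := heq 0 0
  have e01 := heq 0 1
  have e02 := heq 0 2
  have e03 := heq 0 3
  have e11 := heq 1 1
  have e12 := heq 1 2
  have e13 := heq 1 3
  have e22 := heq 2 2
  have e23 := heq 2 3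
  have e33 := heq 3 3
  simp only [Fin.sum_univ_four, s10, s20, s30, s21, s31, s32] at e00 e01 e02 e03 e11 e12 e13 e22 e23 e33
  rw [a0] at e00 e01 e02 e03
  have m0101 : MM T 0 0 * MM T 1 1 = MM T 0 1 * MM T 1 0 := by
    simp only [MM, Matrix.of_apply, Matrix.cons_val, Matrix.cons_val', Matrix.cons_val_zero, Matrix.cons_val_one, Matrix.cons_val_fin_one]
    rw [a0]
    linear_combination (1/2) * e00 + (-1/2) * e11 + (-1/2) * e22 + (1/2) * e33
  have m0102 : MM T 0 0 * MM T 1 2 = MM T 0 2 * MM T 1 0 := by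
    simp only [MM, Matrix.of_apply, Matrix.cons_val, Matrix.cons_val', Matrix.cons_val_zero, Matrix.cons_val_one, Matrix.cons_val_fin_one]
    rw [a0]
    linear_combination (-1) * e01 + (-1) * e23
  have m0112 : MM T 0 1 * MM T 1 2 = MM T 0 2 * MM T 1 1 := by
    simp only [MM, Matrix.of_apply, Matrix.cons_val, Matrix.cons_val', Matrix.cons_val_zero, Matrix.cons_val_one, Matrix.cons_val_fin_one]
    rw [a0]
    linear_combination (-1) * e02 + (1) * e13
  have m0201 : MM T 0 0 * MM T 2 1 = MM T 0 1 * MM T 2 0 := by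
    simp only [MM, Matrix.of_apply, Matrix.cons_val, Matrix.cons_val', Matrix.cons_val_zero, Matrix.cons_val_one, Matrix.cons_val_fin_one]
    rw [a0]
    linear_combination (1) * e01 + (-1) * e23
  have m0202 : MM T 0 0 * MM T 2 2 = MM T 0 2 * MM T 2 0 := by
    simp only [MM, Matrix.of_apply, Matrix.cons_val, Matrix.cons_val', Matrix.cons_val_zero, Matrix.cons_val_one, Matrix.cons_val_fin_one]
    rw [a0]
    linear_combination (1/2) * e00 + (-1/2) * e11 + (1/2) * e22 + (-1/2) * e33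
  have m0212 : MM T 0 1 * MM T 2 2 = MM T 0 2 * MM T 2 1 := by
    simp only [MM, Matrix.of_apply, Matrix.cons_val, Matrix.cons_val', Matrix.cons_val_zero, Matrix.cons_val_one, Matrix.cons_val_fin_one]
    rw [a0]
    linear_combination (-1) * e03 + (-1) * e12
  have m1201 : MM T 1 0 * MM T 2 1 = MM T 1 1 * MM T 2 0 := by
    simp only [MM, Matrix.of_apply, Matrix.cons_val, Matrix.cons_val', Matrix.cons_val_zero, Matrix.cons_val_one, Matrix.cons_val_fin_one]
    rw [a0]
    linear_combination (1) * e02 + (1) * e13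
  have m1202 : MM T 1 0 * MM T 2 2 = MM T 1 2 * MM T 2 0 := by
    simp only [MM, Matrix.of_apply, Matrix.cons_val, Matrix.cons_val', Matrix.cons_val_zero, Matrix.cons_val_one, Matrix.cons_val_fin_one]
    rw [a0]
    linear_combination (1) * e03 + (-1) * e12
  have m1212 : MM T 1 1 * MM T 2 2 = MM T 1 2 * MM T 2 1 := by
    simp only [MM, Matrix.of_apply, Matrix.cons_val, Matrix.cons_val', Matrix.cons_val_zero, Matrix.cons_val_one, Matrix.cons_val_fin_one]
    rw [a0]
    linear_combination (1/2) * e00 + (1/2) * e11 + (-1/2) * e22 + (-1/2) * e33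
  exact MM_all (MM T) m0101 m0102 m0112 m0201 m0202 m0212 m1201 m1202 m1212 i j k l

theorem MM_sq (T : Matrix (Fin 4) (Fin 4) ℂ) (h1 : T * T = T) (h2 : Tᵀ = T)
    (h3 : T.trace = 2) : ∑ i, ∑ j, (MM T i j) ^ 2 = 1 := by
  have hs : ∀ i j, T j i = T i j := fun i j => congrFun (congrFun h2 i) j
  have heq : ∀ i j, ∑ k, T i k * T k j = T i j := fun i j => by
    have h := congrFun (congrFun h1 i) j
    rwa [Matrix.mul_apply] at h
  have s10 : T 1 0 = T 0 1 := hs 0 1
  have s20 : T 2 0 = T 0 2 := hs 0 2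
  have s30 : T 3 0 = T 0 3 := hs 0 3
  have s21 : T 2 1 = T 1 2 := hs 1 2
  have s31 : T 3 1 = T 1 3 := hs 1 3
  have s32 : T 3 2 = T 2 3 := hs 2 3
  have tr : T 0 0 + T 1 1 + T 2 2 + T 3 3 = 2 := by
    rw [← h3, Matrix.trace, Fin.sum_univ_four]
    rfl
  have a0 : T 0 0 = 2 - T 1 1 - T 2 2 - T 3 3 := by linear_combination tr
  have e00 := heq 0 0
  have e01 := heq 0 1
  have e02 := heq 0 2
  have e03 := heq 0 3
  have e11 := heq 1 1
  have e12 := heq 1 2
  have e13 := heq 1 3
  have e22 := heq 2 2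
  have e23 := heq 2 3
  have e33 := heq 3 3
  simp only [Fin.sum_univ_four, s10, s20, s30, s21, s31, s32] at e00 e01 e02 e03 e11 e12 e13 e22 e23 e33
  rw [a0] at e00 e01 e02 e03
  rw [Fin.sum_univ_three, Fin.sum_univ_three, Fin.sum_univ_three, Fin.sum_univ_three]
  simp only [MM, Matrix.of_apply, Matrix.cons_val, Matrix.cons_val', Matrix.cons_val_zero, Matrix.cons_val_one, Matrix.cons_val_fin_one]
  rw [a0]
  linear_combination e00 + e11 + e22 + e33

theorem MM_one_sub (T : Matrix (Fin 4) (Fin 4) ℂ) : MM (1 - T) = - MM T := by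
  ext i j
  fin_cases i <;> fin_cases j <;>
    simp [MM, Matrix.sub_apply, Matrix.one_apply, Matrix.neg_apply] <;> ring

theorem MM_continuous : Continuous MM := by
  unfold MM
  refine continuous_matrix fun i j => ?_
  fin_cases i <;> fin_cases j <;> simp <;> fun_prop

end Pool.Agent.Helper220.Q5
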