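import Mathlib

set_option autoImplicit false

namespace Pool.Agent.Helper220.Q5

open Matrix

/-- rank one facts -/
theorem rank_one (M : Matrix (Fin 3) (Fin 3) ℂ)
    (hm : ∀ i j k l, M i j * M k l = M i l * M k j) (hs : ∑ i, ∑ j, (M i j) ^ 2 = 1) :
    (M * Mᵀ) * (M * Mᵀ) = M * Mᵀ ∧ (M * Mᵀ).trace = 1 ∧
    (∀ v : Fin 3 → ℂ, (M * Mᵀ).mulVec v = v → ∀ i j, v i * v j = (∑ k, v k * v k) * (M * Mᵀ) i j) := by
  have hQd : ∀ i k, (M * Mᵀ) i k = ∑ a, M i a * M k a := by
    intro i k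
    rw [Matrix.mul_apply]
    rfl
  have hQ : ∀ i k j l, (M * Mᵀ) i k * (M * Mᵀ) j l = (M * Mᵀ) i j * (M * Mᵀ) k l := by
    intro i k j l
    rw [hQd, hQd, hQd, hQd, Finset.sum_mul_sum, Finset.sum_mul_sum]
    refine Finset.sum_congr rfl fun a _ => Finset.sum_congr rfl fun b _ => ?_
    have h := hm k a j b
    linear_combination (M i a * M l b) * h
  have hsym : ∀ i k, (M * Mᵀ) i k = (M * Mᵀ) k i := by
    intro i k
    rw [hQd, hQd]
    exact Finset.sum_congr rfl fun a _ => mul_comm _ _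
  have htr : ∑ l, (M * Mᵀ) l l = 1 := by
    rw [← hs]
    refine Finset.sum_congr rfl fun i _ => ?_
    rw [hQd]
    exact Finset.sum_congr rfl fun a _ => by ring
  refine ⟨?_, ?_, ?_⟩
  · ext i k
    rw [Matrix.mul_apply]
    have : ∀ l, (M * Mᵀ) i l * (M * Mᵀ) l k = (M * Mᵀ) i k * (M * Mᵀ) l l := by
      intro l
      rw [hsym l k]
      exact hQ i l k l
    rw [Finset.sum_congr rfl fun l _ => this l, ← Finset.mul_sum, htr, mul_one]
  · exact htr
  · intro v hv i j
    have hvi : ∀ i, v i = ∑ k, (M * Mᵀ) i k * v k := by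
      intro i
      conv_lhs => rw [← hv]
      rfl
    calc v i * v j = (∑ k, (M * Mᵀ) i k * v k) * (∑ l, (M * Mᵀ) j l * v l) := by
          rw [← hvi i, ← hvi j]
      _ = ∑ k, ∑ l, (M * Mᵀ) i j * (v k * ((M * Mᵀ) k l * v l)) := by
          rw [Finset.sum_mul_sum]
          refine Finset.sum_congr rfl fun k _ => Finset.sum_congr rfl fun l _ => ?_
          linear_combination (v k * v l) * hQ i k j l
      _ = (M * Mᵀ) i j * ∑ k, v k * v k := by
          rw [Finset.mul_sum]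
          refine Finset.sum_congr rfl fun k _ => ?_
          rw [← Finset.mul_sum, ← Finset.mul_sum, ← hvi k]
      _ = (∑ k, v k * v k) * (M * Mᵀ) i j := mul_comm _ _

/-- if `Q = a aᵀ` and `b = Mᵀ a` then `b ⬝ b = 1` -/
theorem bb_one (M : Matrix (Fin 3) (Fin 3) ℂ) (a : Fin 3 → ℂ)
    (hs : ∑ i, ∑ j, (M i j) ^ 2 = 1) (ha : ∀ i j, a i * a j = (M * Mᵀ) i j) :
    ∑ k, (Mᵀ.mulVec a) k * (Mᵀ.mulVec a) k = 1 := by
  have hQd : ∀ i k, (M * Mᵀ) i k = ∑ b, M i b * M k b := by
    intro i k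
    rw [Matrix.mul_apply]
    rfl
  have htr : ∑ i, a i * a i = 1 := by
    rw [← hs]
    refine Finset.sum_congr rfl fun i _ => ?_
    rw [ha i i, hQd]
    exact Finset.sum_congr rfl fun b _ => by ring
  have hv : ∀ k, (Mᵀ.mulVec a) k = ∑ i, M i k * a i := by
    intro k
    rfl
  calc ∑ k, (Mᵀ.mulVec a) k * (Mᵀ.mulVec a) k
      = ∑ k, ∑ i, ∑ j, (M i k * a i) * (M j k * a j) := by
        refine Finset.sum_congr rfl fun k _ => ?_
        rw [hv k, Finset.sum_mul_sum]
    _ = ∑ i, ∑ j, ∑ k, (M i k * a i) * (M j k * a j) := by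
        rw [Finset.sum_comm]
        refine Finset.sum_congr rfl fun i _ => ?_
        rw [Finset.sum_comm]
    _ = ∑ i, ∑ j, (a i * a i) * (a j * a j) := by
        refine Finset.sum_congr rfl fun i _ => Finset.sum_congr rfl fun j _ => ?_
        have h1 : ∑ k, (M i k * a i) * (M j k * a j) = (a i * a j) * ∑ k, M i k * M j k := by
          rw [Finset.mul_sum]
          exact Finset.sum_congr rfl fun k _ => by ring
        rw [h1, ← hQd, ← ha i j]
        ring
    _ = 1 := by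
        rw [← Finset.sum_mul_sum, htr, mul_one]

end Pool.Agent.Helper220.Q5
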