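import Mathlib

set_option autoImplicit false

namespace Pool.Agent.Helper220.Q5

open Matrix Metric

/-- a nowhere zero continuous complex function on the closed ball has a continuous square root -/
theorem exists_sqrt (h : EuclideanSpace ℝ (Fin 3) → ℂ) (hc : ContinuousOn h (closedBall 0 1))
    (hn : ∀ y ∈ closedBall (0 : EuclideanSpace ℝ (Fin 3)) 1, h y ≠ 0) :
    ∃ s : EuclideanSpace ℝ (Fin 3) → ℂ, ContinuousOn s (closedBall 0 1) ∧
      ∀ y ∈ closedBall (0 : EuclideanSpace ℝ (Fin 3)) 1, s y ^ 2 = h y := by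
  have hK : IsCompact (Set.Icc (0:ℝ) 1 ×ˢ closedBall (0 : EuclideanSpace ℝ (Fin 3)) 1) :=
    isCompact_Icc.prod (isCompact_closedBall 0 1)
  have hmem : ∀ s ∈ Set.Icc (0:ℝ) 1, ∀ y ∈ closedBall (0 : EuclideanSpace ℝ (Fin 3)) 1,
      s • y ∈ closedBall (0 : EuclideanSpace ℝ (Fin 3)) 1 := by
    intro s hs y hy
    rw [mem_closedBall_zero_iff] at hy ⊢
    rw [norm_smul, Real.norm_eq_abs, abs_of_nonneg hs.1]
    nlinarith [norm_nonneg y, hs.2, hs.1]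
  have hF : ContinuousOn (fun p : ℝ × EuclideanSpace ℝ (Fin 3) => h (p.1 • p.2))
      (Set.Icc (0:ℝ) 1 ×ˢ closedBall (0 : EuclideanSpace ℝ (Fin 3)) 1) :=
    hc.comp (continuous_fst.smul continuous_snd).continuousOn
      (fun p hp => hmem p.1 hp.1 p.2 hp.2)
  obtain ⟨p0, hp0, hmin⟩ := hK.exists_isMinOn
    ⟨((0:ℝ), (0 : EuclideanSpace ℝ (Fin 3))), ⟨⟨le_refl _, zero_le_one⟩, by simp⟩⟩ hF.norm
  have hc0 : 0 < ‖h (p0.1 • p0.2)‖ := norm_pos_iff.2 (hn _ (hmem _ hp0.1 _ hp0.2))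
  have hlow : ∀ s ∈ Set.Icc (0:ℝ) 1, ∀ y ∈ closedBall (0 : EuclideanSpace ℝ (Fin 3)) 1,
      ‖h (p0.1 • p0.2)‖ ≤ ‖h (s • y)‖ := by
    intro s hs y hy
    exact (isMinOn_iff.1 hmin) (s, y) ⟨hs, hy⟩
  have hUC := hK.uniformContinuousOn_of_continuous hF
  rw [Metric.uniformContinuousOn_iff] at hUC
  obtain ⟨δ, hδ, hUC⟩ := hUC _ hc0
  obtain ⟨N, hN⟩ := exists_nat_one_div_lt hδ
  have hN0 : (0:ℝ) < (N:ℝ) + 1 := by positivity
  have hI : ∀ k : ℕ, k ≤ N + 1 → ((k:ℝ)/((N:ℝ)+1)) ∈ Set.Icc (0:ℝ) 1 := by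
    intro k hk
    refine ⟨by positivity, ?_⟩
    rw [div_le_one hN0]
    exact_mod_cast hk
  have key : ∀ k : ℕ, k ≤ N + 1 → ∃ s : EuclideanSpace ℝ (Fin 3) → ℂ,
      ContinuousOn s (closedBall 0 1) ∧
      ∀ y ∈ closedBall (0 : EuclideanSpace ℝ (Fin 3)) 1, s y ^ 2 = h (((k:ℝ)/((N:ℝ)+1)) • y) := by
    intro k
    induction k with
    | zero =>
      intro _
      obtain ⟨z, hz⟩ := IsAlgClosed.exists_pow_nat_eq (h 0) (n := 2) (by norm_num)
      refine ⟨fun _ => z, continuousOn_const, fun y _ => ?_⟩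
      simp only [Nat.cast_zero, zero_div, zero_smul]
      exact hz
    | succ k ih =>
      intro hk
      obtain ⟨s, hs, hsq⟩ := ih (by omega)
      have hc1 : ∀ j : ℕ, j ≤ N + 1 → ContinuousOn (fun y => h (((j:ℝ)/((N:ℝ)+1)) • y))
          (closedBall (0 : EuclideanSpace ℝ (Fin 3)) 1) := by
        intro j hj
        exact hc.comp (continuous_const_smul _).continuousOn (fun y hy => hmem _ (hI j hj) y hy)
      have hne : ∀ y ∈ closedBall (0 : EuclideanSpace ℝ (Fin 3)) 1, h (((k:ℝ)/((N:ℝ)+1)) • y) ≠ 0 :=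
        fun y hy => hn _ (hmem _ (hI k (by omega)) y hy)
      have hq : ∀ y ∈ closedBall (0 : EuclideanSpace ℝ (Fin 3)) 1,
          h ((((k+1 : ℕ):ℝ)/((N:ℝ)+1)) • y) / h (((k:ℝ)/((N:ℝ)+1)) • y) ∈ Complex.slitPlane := by
        intro y hy
        have hd : dist ((((k+1 : ℕ):ℝ)/((N:ℝ)+1)), y) (((k:ℝ)/((N:ℝ)+1)), y) < δ := by
          rw [Prod.dist_eq]
          simp only [dist_self]
          rw [max_eq_left dist_nonneg, Real.dist_eq]
          have : ((k+1 : ℕ):ℝ)/((N:ℝ)+1) - (k:ℝ)/((N:ℝ)+1) = 1/((N:ℝ)+1) := by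
            push_cast; ring
          rw [this, abs_of_nonneg (by positivity)]
          exact hN
        have h1 := hUC ((((k+1 : ℕ):ℝ)/((N:ℝ)+1)), y) (Set.mk_mem_prod (hI (k+1) hk) hy) (((k:ℝ)/((N:ℝ)+1)), y)
          (Set.mk_mem_prod (hI k (by omega)) hy) hd
        have h2 := hlow _ (hI k (by omega)) y hy
        rw [dist_eq_norm] at h1
        have h3 : ‖h ((((k+1 : ℕ):ℝ)/((N:ℝ)+1)) • y) / h (((k:ℝ)/((N:ℝ)+1)) • y) - 1‖ < 1 := by
          rw [div_sub_one (hne y hy), norm_div, div_lt_one (norm_pos_iff.2 (hne y hy))]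
          exact lt_of_lt_of_le h1 h2
        left
        have h4 := Complex.abs_re_le_norm (h ((((k+1 : ℕ):ℝ)/((N:ℝ)+1)) • y) / h (((k:ℝ)/((N:ℝ)+1)) • y) - 1)
        have h5 := (abs_lt.1 (lt_of_le_of_lt h4 h3)).1
        rw [Complex.sub_re, Complex.one_re] at h5
        linarith
      refine ⟨fun y => s y * Complex.exp (Complex.log (h ((((k+1 : ℕ):ℝ)/((N:ℝ)+1)) • y) / h (((k:ℝ)/((N:ℝ)+1)) • y)) / 2), ?_, ?_⟩
      · apply hs.mul
        apply ContinuousOn.cexp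
        apply ContinuousOn.div_const
        apply ContinuousOn.clog _ hq
        exact (hc1 (k+1) hk).div (hc1 k (by omega)) hne
      · intro y hy
        have hq0 := Complex.slitPlane_ne_zero (hq y hy)
        dsimp only
        rw [mul_pow, hsq y hy, ← Complex.exp_nat_mul]
        rw [show ((2:ℕ):ℂ) * (Complex.log (h ((((k+1 : ℕ):ℝ)/((N:ℝ)+1)) • y) / h (((k:ℝ)/((N:ℝ)+1)) • y)) / 2) =
          Complex.log (h ((((k+1 : ℕ):ℝ)/((N:ℝ)+1)) • y) / h (((k:ℝ)/((N:ℝ)+1)) • y)) by push_cast; ring]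
        rw [Complex.exp_log hq0, mul_div_cancel₀ _ (hne y hy)]
  obtain ⟨s, hs, hsq⟩ := key (N+1) le_rfl
  refine ⟨s, hs, fun y hy => ?_⟩
  rw [hsq y hy]
  have : (((N+1 : ℕ):ℝ)/((N:ℝ)+1)) = 1 := by
    push_cast; exact div_self hN0.ne'
  rw [this, one_smul]

end Pool.Agent.Helper220.Q5

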