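import Mathlib

set_option autoImplicit false

namespace Pool.Agent.Helper220.Q5

open Matrix Metric

/-- the l1 sphere -/
def K (m : ℕ) : Set (Fin (m + 1) → ℝ) := {x | ∑ i, |x i| = 1}

/-- no continuous nowhere zero map of the closed 3-ball to `ℝ³` is odd on the boundary; `BU` is
the Borsuk-Ulam theorem (given) -/
theorem no_odd_ball
    (BU : ∀ f : (Fin 4 → ℝ) → (Fin 3 → ℝ), Continuous f → (∀ x, f (-x) = - f x) →
      ∃ x ∈ K 3, f x = 0)
    (f : EuclideanSpace ℝ (Fin 3) → (Fin 3 → ℝ)) (hc : ContinuousOn f (closedBall 0 1))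
    (hodd : ∀ y, ‖y‖ = 1 → f (-y) = - f y)
    (hn : ∀ y ∈ closedBall (0 : EuclideanSpace ℝ (Fin 3)) 1, f y ≠ 0) : False := by
  classical
  let P : (Fin 4 → ℝ) → EuclideanSpace ℝ (Fin 3) := fun x => WithLp.toLp 2 (fun i => x i.castSucc)
  have hP : Continuous P :=
    (PiLp.continuous_toLp 2 _).comp (continuous_pi fun i => continuous_apply _)
  have hPn : ∀ x, P (-x) = -P x := fun x => rfl
  let q : (Fin 4 → ℝ) → ℝ := fun x => ‖P x‖ + |x 3|
  have hq : Continuous q := hP.norm.add (continuous_apply 3).abs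
  have hqn : ∀ x, q (-x) = q x := by
    intro x
    show ‖P (-x)‖ + |(-x) 3| = ‖P x‖ + |x 3|
    rw [hPn, norm_neg, Pi.neg_apply, abs_neg]
  have hq0 : ∀ x, 0 ≤ q x := fun x => add_nonneg (norm_nonneg _) (abs_nonneg _)
  let pr : (Fin 4 → ℝ) → EuclideanSpace ℝ (Fin 3) := fun x => (q x)⁻¹ • P x
  have hprn : ∀ x, pr (-x) = -pr x := by
    intro x
    show (q (-x))⁻¹ • P (-x) = -((q x)⁻¹ • P x)
    rw [hqn, hPn, smul_neg]
  have hprB : ∀ x, pr x ∈ closedBall (0 : EuclideanSpace ℝ (Fin 3)) 1 := by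
    intro x
    rw [mem_closedBall_zero_iff]
    show ‖(q x)⁻¹ • P x‖ ≤ 1
    rw [norm_smul, norm_inv, Real.norm_of_nonneg (hq0 x)]
    rcases (hq0 x).eq_or_lt with h | h
    · rw [← h]
      simp
    · rw [inv_mul_le_iff₀ h, mul_one]
      show ‖P x‖ ≤ ‖P x‖ + |x 3|
      linarith [abs_nonneg (x 3)]
  obtain ⟨C, hC⟩ := (isCompact_closedBall (0 : EuclideanSpace ℝ (Fin 3)) 1).exists_bound_of_continuousOn hc
  let u : (Fin 4 → ℝ) → (Fin 3 → ℝ) := fun x => q x • f (pr x)
  have hu : Continuous u := by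
    rw [continuous_iff_continuousAt]
    intro x
    by_cases hx : q x = 0
    · have h1 : u x = 0 := by
        show q x • f (pr x) = 0
        rw [hx, zero_smul]
      have h2 : Filter.Tendsto u (nhds x) (nhds 0) := by
        apply squeeze_zero_norm (a := fun y => q y * C)
        · intro y
          show ‖q y • f (pr y)‖ ≤ q y * C
          rw [norm_smul, Real.norm_of_nonneg (hq0 y)]
          exact mul_le_mul_of_nonneg_left (hC _ (hprB y)) (hq0 y)
        · have h3 : Filter.Tendsto (fun y => q y * C) (nhds x) (nhds (q x * C)) :=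
            (hq.mul continuous_const).continuousAt
          rw [hx, zero_mul] at h3
          exact h3
      rw [ContinuousAt, h1]
      exact h2
    · have hopen : IsOpen {y | q y ≠ 0} := isOpen_ne_fun hq continuous_const
      have hprc : ContinuousOn pr {y | q y ≠ 0} :=
        (hq.continuousOn.inv₀ (fun y hy => hy)).smul hP.continuousOn
      have hfc : ContinuousOn (fun y => f (pr y)) {y | q y ≠ 0} :=
        hc.comp hprc (fun y _ => hprB y)
      have huc : ContinuousOn u {y | q y ≠ 0} := hq.continuousOn.smul hfc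
      exact huc.continuousAt (hopen.mem_nhds hx)
  have hmatch : ∀ x : Fin 4 → ℝ, 0 = x 3 → u x = -u (-x) := by
    intro x hx
    show q x • f (pr x) = -(q (-x) • f (pr (-x)))
    rw [hqn, hprn]
    by_cases h : q x = 0
    · rw [h]
      simp
    · have h1 : ‖pr x‖ = 1 := by
        show ‖(q x)⁻¹ • P x‖ = 1
        have h2 : q x = ‖P x‖ := by
          show ‖P x‖ + |x 3| = ‖P x‖
          rw [← hx]
          simp
        rw [norm_smul, norm_inv, Real.norm_of_nonneg (hq0 x), h2]
        rw [h2] at h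
        exact inv_mul_cancel₀ h
      rw [hodd _ h1]
      simp
  let g : (Fin 4 → ℝ) → (Fin 3 → ℝ) := fun x => if 0 ≤ x 3 then u x else -u (-x)
  have hg : Continuous g := by
    apply Continuous.if_le hu (hu.comp continuous_neg).neg continuous_const (continuous_apply 3)
    intro x hx
    exact hmatch x hx
  have hgo : ∀ x, g (-x) = -g x := by
    intro x
    show (if 0 ≤ (-x) 3 then u (-x) else -u (- -x)) = -(if 0 ≤ x 3 then u x else -u (-x))
    rw [Pi.neg_apply, neg_neg]
    rcases lt_trichotomy (x 3) 0 with h | h | h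
    · rw [if_pos (by linarith), if_neg (by linarith), neg_neg]
    · rw [if_pos (by linarith), if_pos (by linarith), hmatch x h.symm, neg_neg]
    · rw [if_neg (by linarith), if_pos (by linarith)]
  obtain ⟨x, hxK, hx0⟩ := BU g hg hgo
  have hxne : q x ≠ 0 := by
    intro h
    have h1 : ‖P x‖ = 0 := by
      have := abs_nonneg (x 3)
      have := norm_nonneg (P x)
      have h' : ‖P x‖ + |x 3| = 0 := h
      linarith
    have h2 : |x 3| = 0 := by
      have h' : ‖P x‖ + |x 3| = 0 := h
      linarith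
    have h3 : P x = 0 := norm_eq_zero.mp h1
    have h4 : ∀ i : Fin 3, x i.castSucc = 0 := by
      intro i
      have := congrArg (fun v : EuclideanSpace ℝ (Fin 3) => v i) h3
      exact this
    have h5 : ∑ i, |x i| = 0 := by
      rw [Fin.sum_univ_castSucc]
      have h6 : ∀ i : Fin 3, |x i.castSucc| = 0 := fun i => by rw [h4 i, abs_zero]
      rw [Finset.sum_congr rfl (fun i _ => h6 i)]
      have h7 : |x (Fin.last 3)| = 0 := h2
      rw [h7]
      simp
    have h8 : ∑ i, |x i| = 1 := hxK
    rw [h5] at h8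
    exact zero_ne_one h8
  have hune : ∀ y, q y ≠ 0 → u y ≠ 0 := by
    intro y hy
    exact smul_ne_zero hy (hn _ (hprB y))
  have hx0' : (if 0 ≤ x 3 then u x else -u (-x)) = 0 := hx0
  by_cases h : 0 ≤ x 3
  · rw [if_pos h] at hx0'
    exact hune x hxne hx0'
  · rw [if_neg h, neg_eq_zero] at hx0'
    exact hune (-x) (by rw [hqn]; exact hxne) hx0'

end Pool.Agent.Helper220.Q5
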