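import Mathlib

set_option autoImplicit false

namespace Pool.Agent.Helper220.Q5

open Matrix

/-- a nonsingular complex symmetric matrix is congruent to the identity -/
theorem exists_congr {N : ℕ} (S : Matrix (Fin N) (Fin N) ℂ) (hS : Sᵀ = S) (hd : S.det ≠ 0) :
    ∃ C : Matrix (Fin N) (Fin N) ℂ, C.det ≠ 0 ∧ Cᵀ * S * C = 1 := by
  classical
  have hB : LinearMap.IsSymm (Matrix.toBilin' S) := by
    refine ⟨fun x y => ?_⟩
    rw [RingHom.id_apply, Matrix.toBilin'_apply', Matrix.toBilin'_apply', Matrix.dotProduct_mulVec, ← Matrix.mulVec_transpose, hS,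
      dotProduct_comm]
  haveI : Invertible (2 : ℂ) := invertibleOfNonzero two_ne_zero
  obtain ⟨v, hv⟩ := LinearMap.BilinForm.exists_orthogonal_basis hB
  let e : Fin (Module.finrank ℂ (Fin N → ℂ)) ≃ Fin N := finCongr (Module.finrank_fin_fun ℂ)
  let u := v.reindex e
  have hu : ∀ i j, i ≠ j → (u i) ⬝ᵥ (S *ᵥ (u j)) = 0 := by
    intro i j hij
    have h1 : e.symm i ≠ e.symm j := fun h => hij (e.symm.injective h)
    have h2 := hv h1
    have h3 : Matrix.toBilin' S (v (e.symm i)) (v (e.symm j)) = 0 := h2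
    rw [Matrix.toBilin'_apply'] at h3
    have h4 : u i = v (e.symm i) := Module.Basis.reindex_apply v e i
    have h5 : u j = v (e.symm j) := Module.Basis.reindex_apply v e j
    rw [h4, h5]
    exact h3
  let C0 : Matrix (Fin N) (Fin N) ℂ := Matrix.of fun i j => u j i
  have hC0' : C0 = (Pi.basisFun ℂ (Fin N)).toMatrix u := by
    ext i j
    simp [C0, Module.Basis.toMatrix_apply]
  have hC0 : C0.det ≠ 0 := by
    have h1 := Module.Basis.toMatrix_mul_toMatrix_flip (Pi.basisFun ℂ (Fin N)) u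
    rw [← hC0'] at h1
    have h2 := congrArg Matrix.det h1
    rw [Matrix.det_mul, Matrix.det_one] at h2
    intro h3
    rw [h3, zero_mul] at h2
    exact zero_ne_one h2
  have hent : ∀ i j, (C0ᵀ * S * C0) i j = (u i) ⬝ᵥ (S *ᵥ (u j)) := by
    intro i j
    rw [Matrix.mul_assoc, Matrix.mul_apply]
    simp only [dotProduct, Matrix.mulVec, Matrix.mul_apply, Matrix.transpose_apply, C0, Matrix.of_apply]
  have hdiag : C0ᵀ * S * C0 = Matrix.diagonal (fun i => (u i) ⬝ᵥ (S *ᵥ (u i))) := by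
    ext i j
    rw [hent]
    by_cases h : i = j
    · subst h
      rw [Matrix.diagonal_apply_eq]
    · rw [Matrix.diagonal_apply_ne _ h, hu i j h]
  have hdet : (C0ᵀ * S * C0).det ≠ 0 := by
    rw [Matrix.det_mul, Matrix.det_mul, Matrix.det_transpose]
    exact mul_ne_zero (mul_ne_zero hC0 hd) hC0
  have hdi : ∀ i, (u i) ⬝ᵥ (S *ᵥ (u i)) ≠ 0 := by
    intro i
    rw [hdiag, Matrix.det_diagonal] at hdet
    exact Finset.prod_ne_zero_iff.mp hdet i (Finset.mem_univ i)
  have hroot : ∀ i, ∃ r : ℂ, r ^ 2 = (u i) ⬝ᵥ (S *ᵥ (u i)) := fun i =>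
    IsAlgClosed.exists_pow_nat_eq _ (by norm_num)
  choose r hr using hroot
  have hr0 : ∀ i, r i ≠ 0 := by
    intro i h
    have := hr i
    rw [h] at this
    apply hdi i
    rw [← this]
    norm_num
  refine ⟨C0 * Matrix.diagonal (fun i => (r i)⁻¹), ?_, ?_⟩
  · rw [Matrix.det_mul, Matrix.det_diagonal]
    exact mul_ne_zero hC0 (Finset.prod_ne_zero_iff.mpr fun i _ => inv_ne_zero (hr0 i))
  · rw [Matrix.transpose_mul, Matrix.diagonal_transpose]
    have h1 : Matrix.diagonal (fun i => (r i)⁻¹) * C0ᵀ * S * (C0 * Matrix.diagonal (fun i => (r i)⁻¹)) =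
        Matrix.diagonal (fun i => (r i)⁻¹) * (C0ᵀ * S * C0) * Matrix.diagonal (fun i => (r i)⁻¹) := by
      simp only [Matrix.mul_assoc]
    rw [h1, hdiag, Matrix.diagonal_mul_diagonal, Matrix.diagonal_mul_diagonal, ← Matrix.diagonal_one]
    congr 1
    funext i
    rw [← hr i]
    have := hr0 i
    field_simp

end Pool.Agent.Helper220.Q5
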