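import Pool.Agent.Helper672.Lv.N5

set_option autoImplicit false

namespace Pool.Agent.Helper220.Q5

open Matrix Metric Pool.Agent.Helper672.Lv

theorem Ec_transpose {N : ℕ} (ρ : ℝ) (A : Matrix (Fin N) (Fin N) ℂ) (hA : Aᵀ = A) :
    (Ec ρ A)ᵀ = Ec ρ A := by
  ext i j
  rw [Matrix.transpose_apply]
  have key : (fun z : ℂ => ((z • (1 : Matrix (Fin N) (Fin N) ℂ) - A)⁻¹) j i) =
      fun z : ℂ => ((z • (1 : Matrix (Fin N) (Fin N) ℂ) - A)⁻¹) i j := by
    funext z
    have h : (z • (1 : Matrix (Fin N) (Fin N) ℂ) - A)ᵀ = z • 1 - A := by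
      rw [Matrix.transpose_sub, Matrix.transpose_smul, Matrix.transpose_one, hA]
    have h2 : ((z • (1 : Matrix (Fin N) (Fin N) ℂ) - A)⁻¹)ᵀ = (z • 1 - A)⁻¹ := by
      rw [Matrix.transpose_nonsing_inv, h]
    calc ((z • (1 : Matrix (Fin N) (Fin N) ℂ) - A)⁻¹) j i
        = (((z • (1 : Matrix (Fin N) (Fin N) ℂ) - A)⁻¹)ᵀ) i j := rfl
      _ = _ := by rw [h2]
  unfold Ec
  rw [key]

/-- spectral projections of a compact family of symmetric matrices without real eigenvalues. -/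
theorem exists_family_proj_sym {X : Type*} [TopologicalSpace X] [CompactSpace X] {N : ℕ}
    (R : X → Matrix (Fin N) (Fin N) ℂ) (hR : Continuous R)
    (hno : ∀ x (t : ℝ), (R x - (t : ℂ) • (1 : Matrix (Fin N) (Fin N) ℂ)).det ≠ 0)
    (hsym : ∀ x, (R x)ᵀ = R x) :
    ∃ P : X → Matrix (Fin N) (Fin N) ℂ, Continuous P ∧ (∀ x, P x * P x = P x) ∧
      (∀ x y, R y = - R x → P y = 1 - P x) ∧ ∀ x, (P x)ᵀ = P x := by
  obtain ⟨ρ, hρ, hb⟩ := J27085.exists_radius R hR hno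
  have hneg : ∀ (A : Matrix (Fin N) (Fin N) ℂ) (z : ℂ),
      (z • (1 : Matrix (Fin N) (Fin N) ℂ) - A).det = 0 →
      (A - z • (1 : Matrix (Fin N) (Fin N) ℂ)).det = 0 := by
    intro A z h
    have e : A - z • (1 : Matrix (Fin N) (Fin N) ℂ) =
        -(z • (1 : Matrix (Fin N) (Fin N) ℂ) - A) := by abel
    rw [e, Matrix.det_neg, h, mul_zero]
  have hc : ∀ x, ∀ z : ℂ, ‖z - (ρ : ℂ) * Complex.I‖ = ρ →
      (z • (1 : Matrix (Fin N) (Fin N) ℂ) - R x).det ≠ 0 := by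
    intro x z hz h
    have h1 := hb x z (hneg _ _ h)
    have h2 := normSq_sub_rho ρ z
    rw [hz] at h2
    have h3 : ‖z‖ ^ 2 = 2 * ρ * z.im := by linarith
    have h4 : 0 ≤ z.im := by
      by_contra h5
      push Not at h5
      have : 2 * ρ * z.im < 0 := by nlinarith
      have := sq_nonneg ‖z‖
      linarith
    rw [abs_of_nonneg h4] at h1
    linarith
  have hin : ∀ x (μ : ℂ) (k : ℕ) (u : Fin N → ℂ),
      ((R x - μ • (1 : Matrix (Fin N) (Fin N) ℂ)) ^ k).mulVec u = 0 →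
      (R x - μ • (1 : Matrix (Fin N) (Fin N) ℂ)).det = 0 → 0 < μ.im →
      (Ec ρ (R x)).mulVec u = u := by
    intro x μ k u hu hd hi
    refine J27086.Ec_inside hρ (R x) (hc x) μ ?_ k u hu
    have h1 := hb x μ hd
    have h2 := normSq_sub_rho ρ μ
    rw [abs_of_pos hi] at h1
    have h3 : ‖μ - (ρ : ℂ) * Complex.I‖ ^ 2 < ρ ^ 2 := by linarith
    exact lt_of_pow_lt_pow_left₀ 2 hρ.le h3
  have hout : ∀ x (μ : ℂ) (k : ℕ) (u : Fin N → ℂ),
      ((R x - μ • (1 : Matrix (Fin N) (Fin N) ℂ)) ^ k).mulVec u = 0 →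
      (R x - μ • (1 : Matrix (Fin N) (Fin N) ℂ)).det = 0 → μ.im < 0 →
      (Ec ρ (R x)).mulVec u = 0 := by
    intro x μ k u hu hd hi
    refine J27086.Ec_outside hρ (R x) (hc x) μ ?_ k u hu
    have h2 := normSq_sub_rho ρ μ
    have h4 : 0 < -(2 * ρ * μ.im) := by nlinarith
    have h3 : ρ ^ 2 < ‖μ - (ρ : ℂ) * Complex.I‖ ^ 2 := by
      have := sq_nonneg ‖μ‖
      linarith
    exact lt_of_pow_lt_pow_left₀ 2 (norm_nonneg _) h3
  have him : ∀ x (μ : ℂ), (R x - μ • (1 : Matrix (Fin N) (Fin N) ℂ)).det = 0 →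
      0 < μ.im ∨ μ.im < 0 := by
    intro x μ hd
    rcases lt_trichotomy μ.im 0 with h | h | h
    · exact Or.inr h
    · exfalso
      apply hno x μ.re
      have e : ((μ.re : ℝ) : ℂ) = μ := by
        apply Complex.ext
        · simp
        · simp [h]
      rw [e]; exact hd
    · exact Or.inl h
  refine ⟨fun x => Ec ρ (R x), J27087.Ec_continuous hρ R hR hc, ?_, ?_, ?_⟩
  · intro x
    refine J27088.ext_genEigen (R x) _ _ ?_
    intro μ k u hu hd
    rw [← Matrix.mulVec_mulVec]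
    rcases him x μ hd with h | h
    · rw [hin x μ k u hu hd h, hin x μ k u hu hd h]
    · rw [hout x μ k u hu hd h, Matrix.mulVec_zero]
  · intro x y hxy
    refine J27088.ext_genEigen (R x) _ _ ?_
    intro μ k u hu hd
    have e : R y - (-μ) • (1 : Matrix (Fin N) (Fin N) ℂ) =
        -(R x - μ • (1 : Matrix (Fin N) (Fin N) ℂ)) := by
      rw [hxy, neg_smul]; abel
    have hu' : ((R y - (-μ) • (1 : Matrix (Fin N) (Fin N) ℂ)) ^ k).mulVec u = 0 := by
      rw [e, neg_pow, ← Matrix.mulVec_mulVec, hu, Matrix.mulVec_zero]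
    have hd' : (R y - (-μ) • (1 : Matrix (Fin N) (Fin N) ℂ)).det = 0 := by
      rw [e, Matrix.det_neg, hd, mul_zero]
    rw [Matrix.sub_mulVec, Matrix.one_mulVec]
    rcases him x μ hd with h | h
    · rw [hin x μ k u hu hd h, hout y (-μ) k u hu' hd' (by simpa using h), sub_self]
    · rw [hout x μ k u hu hd h, hin y (-μ) k u hu' hd' (by simpa using h), sub_zero]
  · intro x
    exact Ec_transpose ρ (R x) (hsym x)

/-- radial contraction of the ball. -/
theorem ball_smul (t : ℝ) (x : closedBall (0 : EuclideanSpace ℝ (Fin 3)) 1) :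
    (max 0 (min t 1)) • (x : EuclideanSpace ℝ (Fin 3)) ∈
      closedBall (0 : EuclideanSpace ℝ (Fin 3)) 1 := by
  have hx : ‖(x : EuclideanSpace ℝ (Fin 3))‖ ≤ 1 := mem_closedBall_zero_iff.1 x.2
  rw [mem_closedBall_zero_iff, norm_smul]
  have h0 : 0 ≤ max 0 (min t 1) := le_max_left _ _
  have h1 : max 0 (min t 1) ≤ 1 := max_le zero_le_one (min_le_right _ _)
  rw [Real.norm_of_nonneg h0]
  calc max 0 (min t 1) * ‖(x : EuclideanSpace ℝ (Fin 3))‖ ≤ 1 * 1 :=
        mul_le_mul h1 hx (norm_nonneg _) zero_le_one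
    _ = 1 := one_mul 1

theorem ball_compact : CompactSpace (closedBall (0 : EuclideanSpace ℝ (Fin 3)) 1) :=
  isCompact_iff_compactSpace.1 (isCompact_closedBall _ _)

/-- transport of a family of idempotents over the ball. -/
theorem ball_transport {N : ℕ}
    (P : closedBall (0 : EuclideanSpace ℝ (Fin 3)) 1 → Matrix (Fin N) (Fin N) ℂ)
    (hP : Continuous P) (hid : ∀ x, P x * P x = P x) :
    ∃ (P₀ : Matrix (Fin N) (Fin N) ℂ)
      (g : closedBall (0 : EuclideanSpace ℝ (Fin 3)) 1 → Matrix (Fin N) (Fin N) ℂ),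
      (∃ x, P x = P₀) ∧ Continuous g ∧ (∀ x, (g x).det ≠ 0) ∧ ∀ x, g x * P₀ = P x * g x := by
  have := ball_compact
  let c : ℝ → closedBall (0 : EuclideanSpace ℝ (Fin 3)) 1 →
      closedBall (0 : EuclideanSpace ℝ (Fin 3)) 1 := fun t x => ⟨_, ball_smul t x⟩
  have hc : Continuous fun p : ℝ × closedBall (0 : EuclideanSpace ℝ (Fin 3)) 1 => c p.1 p.2 := by
    refine Continuous.subtype_mk ?_ _
    exact ((continuous_const.max (continuous_fst.min continuous_const)).smul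
      (continuous_subtype_val.comp continuous_snd))
  obtain ⟨g, h1, h2, h3⟩ := J27089.exists_transport (fun t x => P (c t x)) (hP.comp hc)
    (fun t x => hid _) (P ⟨0, by simp⟩) (by
      intro x
      congr 1
      apply Subtype.ext
      show (max 0 (min (0:ℝ) 1)) • (x : EuclideanSpace ℝ (Fin 3)) = 0
      simp)
  refine ⟨P ⟨0, by simp⟩, g, ⟨_, rfl⟩, h1, h2, ?_⟩
  intro x
  rw [h3 x]
  congr 2
  apply Subtype.ext
  show (max 0 (min (1:ℝ) 1)) • (x : EuclideanSpace ℝ (Fin 3)) = x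
  simp

theorem trace_of_conj {N : ℕ} (P P₀ g : Matrix (Fin N) (Fin N) ℂ) (hg : g.det ≠ 0)
    (h : g * P₀ = P * g) : P.trace = P₀.trace := by
  have hu : IsUnit g.det := isUnit_iff_ne_zero.2 hg
  have : P = g * P₀ * g⁻¹ := by
    rw [h, Matrix.mul_assoc, Matrix.mul_nonsing_inv _ hu, Matrix.mul_one]
  rw [this, Matrix.trace_mul_comm, ← Matrix.mul_assoc, Matrix.nonsing_inv_mul _ hu,
    Matrix.one_mul]

/-- the family of symmetric projections over the ball. -/
theorem exists_T (S : Fin 5 → Matrix (Fin 4) (Fin 4) ℂ) (hS : ∀ i, (S i)ᵀ = S i)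
    (h4 : S 4 = 1) (hcon : ∀ w : Fin 5 → ℝ, w ≠ 0 → (∑ i, (w i : ℂ) • S i).det ≠ 0) :
    ∃ T : closedBall (0 : EuclideanSpace ℝ (Fin 3)) 1 → Matrix (Fin 4) (Fin 4) ℂ,
      Continuous T ∧ (∀ x, T x * T x = T x) ∧ (∀ x, (T x)ᵀ = T x) ∧ (∀ x, (T x).trace = 2) ∧
      ∀ x y : closedBall (0 : EuclideanSpace ℝ (Fin 3)) 1,
        ‖(x : EuclideanSpace ℝ (Fin 3))‖ = 1 → (y : EuclideanSpace ℝ (Fin 3)) = -x →
        T y = 1 - T x := by
  have := ball_compact
  set R : closedBall (0 : EuclideanSpace ℝ (Fin 3)) 1 → Matrix (Fin 4) (Fin 4) ℂ := fun x =>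
    ((((x : EuclideanSpace ℝ (Fin 3)) 0 : ℝ) : ℂ) • S 0 +
      (((x : EuclideanSpace ℝ (Fin 3)) 1 : ℝ) : ℂ) • S 1 +
      (((x : EuclideanSpace ℝ (Fin 3)) 2 : ℝ) : ℂ) • S 2 +
      ((Real.sqrt (1 - ‖(x : EuclideanSpace ℝ (Fin 3))‖ ^ 2) : ℝ) : ℂ) • S 3) with hR
  have hRc : Continuous R := by
    rw [hR]
    have e : ∀ i : Fin 3, Continuous fun x : closedBall (0 : EuclideanSpace ℝ (Fin 3)) 1 =>
        (((x : EuclideanSpace ℝ (Fin 3)) i : ℝ) : ℂ) := by
      intro i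
      fun_prop
    have e2 : Continuous fun x : closedBall (0 : EuclideanSpace ℝ (Fin 3)) 1 =>
        ((Real.sqrt (1 - ‖(x : EuclideanSpace ℝ (Fin 3))‖ ^ 2) : ℝ) : ℂ) := by
      fun_prop
    exact ((((e 0).smul continuous_const).add ((e 1).smul continuous_const)).add
      ((e 2).smul continuous_const)).add (e2.smul continuous_const)
  have hsym : ∀ x, (R x)ᵀ = R x := by
    intro x
    simp only [hR, Matrix.transpose_add, Matrix.transpose_smul, hS]
  have hno : ∀ x (t : ℝ), (R x - (t : ℂ) • (1 : Matrix (Fin 4) (Fin 4) ℂ)).det ≠ 0 := by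
    intro x t
    have h1 := hcon ![(x : EuclideanSpace ℝ (Fin 3)) 0, (x : EuclideanSpace ℝ (Fin 3)) 1,
      (x : EuclideanSpace ℝ (Fin 3)) 2, Real.sqrt (1 - ‖(x : EuclideanSpace ℝ (Fin 3))‖ ^ 2), -t] (by
        intro h0
        have a0 := congrFun h0 0
        have a1 := congrFun h0 1
        have a2 := congrFun h0 2
        have a3 := congrFun h0 3
        simp at a0 a1 a2 a3
        have hx : ‖(x : EuclideanSpace ℝ (Fin 3))‖ ^ 2 = 0 := by
          rw [EuclideanSpace.norm_sq_eq, Fin.sum_univ_three, a0, a1, a2]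
          simp
        rw [hx] at a3
        norm_num at a3)
    convert h1 using 2
    rw [Fin.sum_univ_five]
    simp only [hR]
    rw [h4]
    simp [sub_eq_add_neg]
  obtain ⟨P, hPc, hPid, hPneg, hPsym⟩ := exists_family_proj_sym R hRc hno hsym
  have hneg : ∀ x y : closedBall (0 : EuclideanSpace ℝ (Fin 3)) 1,
      ‖(x : EuclideanSpace ℝ (Fin 3))‖ = 1 → (y : EuclideanSpace ℝ (Fin 3)) = -x →
        P y = 1 - P x := by
    intro x y hx hy
    apply hPneg
    simp only [hR]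
    rw [hy, norm_neg, hx]
    simp
    abel
  refine ⟨P, hPc, hPid, hPsym, ?_, hneg⟩
  obtain ⟨P₀, g, -, -, hg, hgP⟩ := ball_transport P hPc hPid
  have htr : ∀ x, (P x).trace = P₀.trace := fun x => trace_of_conj _ _ _ (hg x) (hgP x)
  have e0n : ‖(EuclideanSpace.single 0 1 : EuclideanSpace ℝ (Fin 3))‖ = 1 := by simp
  let x0 : closedBall (0 : EuclideanSpace ℝ (Fin 3)) 1 :=
    ⟨EuclideanSpace.single 0 1, by rw [mem_closedBall_zero_iff, e0n]⟩
  let y0 : closedBall (0 : EuclideanSpace ℝ (Fin 3)) 1 :=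
    ⟨-EuclideanSpace.single 0 1, by rw [mem_closedBall_zero_iff, norm_neg, e0n]⟩
  have h1 := hneg x0 y0 e0n rfl
  have h2 := htr x0
  have h3 := htr y0
  rw [h1, Matrix.trace_sub, h2, Matrix.trace_one] at h3
  intro x
  rw [htr x]
  have h5 : (4 : ℂ) - P₀.trace = P₀.trace := by simpa using h3
  linear_combination (-1 / 2 : ℂ) * h5
end Pool.Agent.Helper220.Q5
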