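import Pool.Agent.Helper220.Q5.Main

set_option autoImplicit false

namespace Pool.Agent.Helper220.Q5

open Matrix Set Topology Pool.Agent.Helper672.Lv Pool.Agent.Helper775.Tight Pool.Agent.Helper775.Tight.SoftCx

/-- a linear combination of the forms has a radical. -/
theorem exists_radical_sym {m : ℕ}
    (HS : ∀ S : Fin 5 → Matrix (Fin m) (Fin m) ℂ, (∀ i, (S i)ᵀ = S i) →
      ∃ w : Fin 5 → ℝ, w ≠ 0 ∧ (∑ i, (w i : ℂ) • S i).det = 0)
    (hm : 4 ≤ m) (q : Fin (m + 1) → QuadraticForm ℝ (Fin m → ℂ))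
    (hq : ∀ j z, q j (Complex.I • z) = - q j z) :
    ∃ w : E (m + 1), ‖w‖ = 1 ∧ ∃ u : Fin m → ℂ, u ≠ 0 ∧
      ∀ z, ∑ j, w j * q j (u + z) = ∑ j, w j * q j z := by
  classical
  choose C hC hCs using fun j => cform_sym (q j) (hq j)
  have h5 : 5 ≤ m + 1 := by omega
  obtain ⟨w, hw, hdet⟩ := HS (fun i => LinearMap.toMatrix₂' ℂ (C (Fin.castLE h5 i))) (by
    intro i
    ext a b
    rw [Matrix.transpose_apply, LinearMap.toMatrix₂'_apply, LinearMap.toMatrix₂'_apply, hCs])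
  obtain ⟨u, hu, hMu⟩ := Matrix.exists_mulVec_eq_zero_iff.2 hdet
  have hinj : Function.Injective (Fin.castLE h5) := Fin.castLE_injective h5
  -- the vanishing of the combination of the polar forms
  have hB : ∀ z, ∑ i, w i * QuadraticMap.polar (q (Fin.castLE h5 i)) z u = 0 := by
    intro z
    have h1 : (∑ i, (w i : ℂ) • C (Fin.castLE h5 i)) z u = 0 := by
      have h2 : (∑ i, (w i : ℂ) • C (Fin.castLE h5 i)) =
          Matrix.toLinearMap₂' ℂ (∑ i, (w i : ℂ) • LinearMap.toMatrix₂' ℂ (C (Fin.castLE h5 i))) := by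
        rw [map_sum]
        refine Finset.sum_congr rfl fun i _ => ?_
        rw [map_smul, Matrix.toLinearMap₂'_toMatrix']
      rw [h2, Matrix.toLinearMap₂'_apply', hMu, dotProduct_zero]
    have h3 := congrArg Complex.re h1
    simp only [LinearMap.sum_apply, LinearMap.smul_apply, Complex.re_sum, smul_eq_mul,
      Complex.re_ofReal_mul, hC, Complex.zero_re] at h3
    exact h3
  let w0 : E (m + 1) := WithLp.toLp 2 (Function.extend (Fin.castLE h5) w 0)
  have hw0a : ∀ i, w0 (Fin.castLE h5 i) = w i := fun i => hinj.extend_apply w 0 i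
  have hw0b : ∀ j, j ∉ Set.range (Fin.castLE h5) → w0 j = 0 := by
    intro j hj
    exact Function.extend_apply' w (0 : Fin (m + 1) → ℝ) j (fun ⟨i, hi⟩ => hj ⟨i, hi⟩)
  have hw0 : w0 ≠ 0 := by
    intro h
    apply hw
    ext i
    rw [← hw0a i, h]
    rfl
  have hn : ‖w0‖ ≠ 0 := norm_ne_zero_iff.2 hw0
  have hB0 : ∀ z, ∑ j, w0 j * QuadraticMap.polar (q j) z u = 0 := by
    intro z
    rw [← hB z]
    symm
    apply Fintype.sum_of_injective (Fin.castLE h5) hinj
    · intro j hj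
      rw [hw0b j hj, zero_mul]
    · intro i
      rw [hw0a]
  refine ⟨‖w0‖⁻¹ • w0, ?_, u, hu, ?_⟩
  · rw [norm_smul, norm_inv, norm_norm, inv_mul_cancel₀ hn]
  · intro z
    have hexp : ∀ j, q j (u + z) = q j u + q j z + QuadraticMap.polar (q j) z u := by
      intro j
      rw [QuadraticMap.polar_comm]
      unfold QuadraticMap.polar
      ring
    have hqu : ∀ j, q j u = QuadraticMap.polar (q j) u u / 2 := by
      intro j
      rw [QuadraticMap.polar_self]
      simp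
    have e1 : ∑ j, (‖w0‖⁻¹ • w0) j * q j (u + z) - ∑ j, (‖w0‖⁻¹ • w0) j * q j z =
        ‖w0‖⁻¹ * (1 / 2 * ∑ j, w0 j * QuadraticMap.polar (q j) u u +
          ∑ j, w0 j * QuadraticMap.polar (q j) z u) := by
      rw [← Finset.sum_sub_distrib, Finset.mul_sum, ← Finset.sum_add_distrib, Finset.mul_sum]
      refine Finset.sum_congr rfl fun j _ => ?_
      rw [hexp, hqu]
      simp only [PiLp.smul_apply, smul_eq_mul]
      ring
    rw [hB0, hB0] at e1
    have e2 : ‖w0‖⁻¹ * (1 / 2 * (0:ℝ) + 0) = 0 := by ring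
    rw [e2] at e1
    linarith

/-- no `m + 1` forms. -/
theorem no_forms_of {m : ℕ} (hm4 : 4 ≤ m)
    (HS : ∀ S : Fin 5 → Matrix (Fin m) (Fin m) ℂ, (∀ i, (S i)ᵀ = S i) →
      ∃ w : Fin 5 → ℝ, w ≠ 0 ∧ (∑ i, (w i : ℂ) • S i).det = 0)
    (q : Fin (m + 1) → QuadraticForm ℝ (Fin m → ℂ))
    (hq : ∀ j z, q j (Complex.I • z) = - q j z) (hfree : ∀ z, z ≠ 0 → ∃ j, q j z ≠ 0) :
    False := by
  obtain ⟨w₀, hw₀, u, hu, hker⟩ := exists_radical_sym HS (by omega) q hq
  have hfin : Module.finrank ℝ (E (2 * m)) = Module.finrank ℝ (Fin m → ℂ) := by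
    rw [finrank_euclideanSpace_fin, Module.finrank_pi_fintype]
    simp [Complex.finrank_real_complex, mul_comm]
  obtain ⟨Φ₀⟩ : Nonempty (E (2 * m) ≃ₗ[ℝ] (Fin m → ℂ)) := ⟨LinearEquiv.ofFinrankEq _ _ hfin⟩
  obtain ⟨O, N, lam, hmN, hN, hp, hn, hf, hr⟩ := spec_bound q hq Φ₀ w₀
  have hN1 := hr u hu hker
  set Φ := O.toLinearEquiv.trans Φ₀ with hΦ
  obtain ⟨Q, hQ⟩ := exists_Q q Φ
  have hin : ∀ (w : E (m + 1)) (z : E (2 * m)), inner ℝ w (Q (v (2 * m) z)) = FF q Φ w z := by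
    intro w z
    rw [FF_apply, PiLp.inner_apply]
    refine Finset.sum_congr rfl fun j _ => ?_
    rw [hQ]
    simp [mul_comm]
  refine T2 (m := m) (M := 2 * m) (by omega) (by omega) Q ?_ ?_ w₀ ⟨hw₀, ?_⟩ ?_
  · intro z hz h0
    have hz0 : z ≠ 0 := by
      rintro rfl
      have := hz.1
      rw [norm_zero] at this
      exact zero_ne_one this
    obtain ⟨j, hj⟩ := hfree (Φ z) (by
      rw [ne_eq, LinearEquiv.map_eq_zero_iff]; exact hz0)
    apply hj
    rw [← hQ, h0]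
    rfl
  · intro w hw
    obtain ⟨O', N', lam', h1, h2, h3, h4, h5, -⟩ := spec_bound q hq Φ w
    refine ⟨O', N', lam', h1, h2, h3, h4, fun z => ?_⟩
    rw [hin, h5]
  · intro i hi
    exact absurd i.2 (by omega)
  · intro z hz
    rw [hin]
    have : FF q Φ w₀ z = FF q Φ₀ w₀ (O z) := by
      rw [FF_apply, FF_apply]
      rfl
    rw [this, hf]
    refine Finset.sum_nonneg fun i _ => ?_
    rcases Nat.lt_or_ge i.val (m + 1) with h | h
    · exact mul_nonneg (hp i (by omega)) (sq_nonneg _)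
    · rw [hz.2 i h]; simp

end Pool.Agent.Helper220.Q5
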