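import Mathlib

set_option autoImplicit false

namespace Pool.Agent.Helper220.Q5

/-- the complex bilinear form
whose real part is the polar form; NEW: it is symmetric -/
theorem cform_sym {m : ℕ} (q : QuadraticForm ℝ (Fin m → ℂ))
    (hq : ∀ z, q (Complex.I • z) = - q z) :
    ∃ C : (Fin m → ℂ) →ₗ[ℂ] (Fin m → ℂ) →ₗ[ℂ] ℂ,
      (∀ z z', (C z z').re = QuadraticMap.polar q z z') ∧ ∀ z z', C z z' = C z' z := by
  have hII : ∀ z : Fin m → ℂ, Complex.I • (Complex.I • z) = -z := by
    intro z
    rw [smul_smul, Complex.I_mul_I, neg_one_smul]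
  have h1 : ∀ z z', QuadraticMap.polar q (Complex.I • z) (Complex.I • z') =
      -QuadraticMap.polar q z z' := by
    intro z z'
    unfold QuadraticMap.polar
    rw [← smul_add, hq, hq, hq]
    ring
  have h2 : ∀ z z', QuadraticMap.polar q z (Complex.I • z') =
      QuadraticMap.polar q (Complex.I • z) z' := by
    intro z z'
    have h3 := h1 (Complex.I • z) z'
    rw [hII, QuadraticMap.polar_neg_left] at h3
    linarith
  have hsm : ∀ (c : ℂ) (z : Fin m → ℂ), c • z = c.re • z + c.im • (Complex.I • z) := by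
    intro c z
    ext i
    simp only [Pi.smul_apply, Pi.add_apply, smul_eq_mul, Complex.real_smul]
    conv_lhs => rw [← Complex.re_add_im c]
    ring
  refine ⟨LinearMap.mk₂ ℂ (fun z z' => ((QuadraticMap.polar q z z' : ℝ) : ℂ) -
    Complex.I * ((QuadraticMap.polar q (Complex.I • z) z' : ℝ) : ℂ)) ?_ ?_ ?_ ?_, ?_, ?_⟩
  · intro z z' w
    rw [smul_add, QuadraticMap.polar_add_left, QuadraticMap.polar_add_left]
    push_cast
    ring
  · intro c z w
    have e1 : Complex.I • (c • z) = c.re • (Complex.I • z) + c.im • (-z) := by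
      rw [smul_comm, hsm c (Complex.I • z), hII]
    rw [e1, hsm c z, QuadraticMap.polar_add_left, QuadraticMap.polar_add_left,
      QuadraticMap.polar_smul_left, QuadraticMap.polar_smul_left, QuadraticMap.polar_smul_left,
      QuadraticMap.polar_smul_left, QuadraticMap.polar_neg_left]
    apply Complex.ext
    · simp
      try ring
    · simp
      try ring
  · intro z w w'
    rw [QuadraticMap.polar_add_right, QuadraticMap.polar_add_right]
    push_cast
    ring
  · intro c z w
    rw [hsm c w, QuadraticMap.polar_add_right, QuadraticMap.polar_add_right,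
      QuadraticMap.polar_smul_right, QuadraticMap.polar_smul_right, QuadraticMap.polar_smul_right,
      QuadraticMap.polar_smul_right, h2, h1]
    apply Complex.ext
    · simp
      try ring
    · simp
      try ring
  · intro z z'
    simp
  · intro z z'
    simp only [LinearMap.mk₂_apply]
    rw [QuadraticMap.polar_comm q (Complex.I • z') z, h2, QuadraticMap.polar_comm q z' z]

/-- the 5 forms `Im φ_j` of three complex variables without a common zero, for
`φ = (2 z₀ z₁, z₀² - z₁², i(z₀²+z₁²), z₂², i z₂²)` -/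
theorem example_three : ∃ φ : Fin 5 → QuadraticForm ℂ (Fin 3 → ℂ),
    ∀ z, z ≠ 0 → ∃ j, (φ j z).im ≠ 0 := by
  let P : Fin 3 → Fin 3 → QuadraticForm ℂ (Fin 3 → ℂ) := fun a b =>
    QuadraticMap.linMulLin (LinearMap.proj a) (LinearMap.proj b)
  refine ⟨![(2 : ℂ) • P 0 1, P 0 0 - P 1 1, Complex.I • (P 0 0 + P 1 1), P 2 2,
    Complex.I • P 2 2], fun z hz => ?_⟩
  by_contra hcon
  push Not at hcon
  have k0 : ((2 : ℂ) * (z 0 * z 1)).im = 0 := hcon 0
  have k1 : (z 0 * z 0 - z 1 * z 1).im = 0 := hcon 1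
  have k2 : (Complex.I * (z 0 * z 0 + z 1 * z 1)).im = 0 := hcon 2
  have k3 : (z 2 * z 2).im = 0 := hcon 3
  have k4 : (Complex.I * (z 2 * z 2)).im = 0 := hcon 4
  obtain ⟨a, ha⟩ : ∃ a, a = (z 0).re := ⟨_, rfl⟩
  obtain ⟨b, hb⟩ : ∃ b, b = (z 0).im := ⟨_, rfl⟩
  obtain ⟨c, hc⟩ : ∃ c, c = (z 1).re := ⟨_, rfl⟩
  obtain ⟨d, hd⟩ : ∃ d, d = (z 1).im := ⟨_, rfl⟩
  obtain ⟨e, he⟩ : ∃ e, e = (z 2).re := ⟨_, rfl⟩
  obtain ⟨f, hf⟩ : ∃ f, f = (z 2).im := ⟨_, rfl⟩
  simp only [Complex.mul_im, Complex.mul_re, Complex.sub_im, Complex.add_im, Complex.add_re,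
    Complex.I_re, Complex.I_im, Complex.re_ofNat, Complex.im_ofNat, ← ha, ← hb, ← hc, ← hd,
    ← he, ← hf] at k0 k1 k2 k3 k4
  have h1 : a * d + b * c = 0 := by linarith
  have h2 : a * b - c * d = 0 := by linarith
  have h3 : a ^ 2 + c ^ 2 = b ^ 2 + d ^ 2 := by linarith
  have h4 : e * f = 0 := by linarith
  have h5 : e ^ 2 = f ^ 2 := by linarith
  have hef : e = 0 ∧ f = 0 := by
    rcases mul_eq_zero.mp h4 with h | h
    · subst h
      exact ⟨rfl, by nlinarith [sq_nonneg f]⟩
    · subst h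
      exact ⟨by nlinarith [sq_nonneg e], rfl⟩
  have hS : (a * d) * (a ^ 2 + b ^ 2 + c ^ 2 + d ^ 2) = 0 := by
    linear_combination (a ^ 2 + d ^ 2) * h1 + (b * d - a * c) * h2
  have hall : a = 0 ∧ b = 0 ∧ c = 0 ∧ d = 0 := by
    have hsq : ∀ x : ℝ, x ^ 2 = 0 → x = 0 := fun x hx => by simpa using hx
    rcases mul_eq_zero.mp hS with h | h
    · have h6 : b * c = 0 := by linarith
      rcases mul_eq_zero.mp h with h | h <;> rcases mul_eq_zero.mp h6 with h' | h'
      · subst h; subst h'
        have h7 : c * d = 0 := by linarith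
        rcases mul_eq_zero.mp h7 with h8 | h8
        · subst h8
          exact ⟨rfl, rfl, rfl, hsq d (by linarith)⟩
        · subst h8
          exact ⟨rfl, rfl, hsq c (by linarith), rfl⟩
      · subst h; subst h'
        exact ⟨rfl, hsq b (by nlinarith [sq_nonneg b, sq_nonneg d]), rfl,
          hsq d (by nlinarith [sq_nonneg b, sq_nonneg d])⟩
      · subst h; subst h'
        exact ⟨hsq a (by nlinarith [sq_nonneg a, sq_nonneg c]), rfl,
          hsq c (by nlinarith [sq_nonneg a, sq_nonneg c]), rfl⟩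
      · subst h; subst h'
        have h7 : a * b = 0 := by linarith
        rcases mul_eq_zero.mp h7 with h8 | h8
        · subst h8
          exact ⟨rfl, hsq b (by linarith), rfl, rfl⟩
        · subst h8
          exact ⟨hsq a (by linarith), rfl, rfl, rfl⟩
    · refine ⟨hsq a ?_, hsq b ?_, hsq c ?_, hsq d ?_⟩ <;>
        nlinarith [sq_nonneg a, sq_nonneg b, sq_nonneg c, sq_nonneg d]
  apply hz
  funext j
  fin_cases j
  · exact Complex.ext (ha.symm.trans hall.1) (hb.symm.trans hall.2.1)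
  · exact Complex.ext (hc.symm.trans hall.2.2.1) (hd.symm.trans hall.2.2.2)
  · exact Complex.ext (he.symm.trans hef.1) (hf.symm.trans hef.2)

end Pool.Agent.Helper220.Q5
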