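import Pool.Agent.Helper220.Q5.A
import Pool.Agent.Helper220.Q5.B
import Pool.Agent.Helper220.Q5.C
import Pool.Agent.Helper220.Q5.D
import Pool.Agent.Helper220.Q5.F
import Pool.Agent.Helper220.Q5.H
import Pool.Agent.Helper220.Q5.Fam
import Pool.Agent.Helper672.Lv.Fin

set_option autoImplicit false

namespace Pool.Agent.Helper220.Q5

open Matrix Metric Pool.Agent.Helper672.Lv

/-- retraction to the ball. -/
noncomputable def ret (y : EuclideanSpace ℝ (Fin 3)) :
    closedBall (0 : EuclideanSpace ℝ (Fin 3)) 1 :=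
  ⟨(max 1 ‖y‖)⁻¹ • y, by
    have h0 : 0 < max 1 ‖y‖ := lt_of_lt_of_le one_pos (le_max_left _ _)
    rw [mem_closedBall_zero_iff, norm_smul, norm_inv, Real.norm_of_nonneg h0.le, inv_mul_le_iff₀ h0,
      mul_one]
    exact le_max_right _ _⟩

theorem ret_continuous : Continuous ret := by
  have h1 : Continuous fun y : EuclideanSpace ℝ (Fin 3) => max (1 : ℝ) ‖y‖ :=
    continuous_const.max continuous_norm
  have h2 : Continuous fun y : EuclideanSpace ℝ (Fin 3) => (max (1 : ℝ) ‖y‖)⁻¹ := by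
    refine h1.inv₀ ?_
    intro y
    have h0 : 0 < max 1 ‖y‖ := lt_of_lt_of_le one_pos (le_max_left _ _)
    exact h0.ne'
  exact Continuous.subtype_mk (h2.smul continuous_id) _

theorem ret_coe (y : EuclideanSpace ℝ (Fin 3)) (hy : ‖y‖ ≤ 1) :
    (ret y : EuclideanSpace ℝ (Fin 3)) = y := by
  show (max 1 ‖y‖)⁻¹ • y = y
  rw [max_eq_left hy, inv_one, one_smul]

theorem ret_sub (x : closedBall (0 : EuclideanSpace ℝ (Fin 3)) 1) : ret x = x :=
  Subtype.ext (ret_coe x (mem_closedBall_zero_iff.1 x.2))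

theorem exists_lift (M : closedBall (0 : EuclideanSpace ℝ (Fin 3)) 1 → Matrix (Fin 3) (Fin 3) ℂ)
    (hM : Continuous M)
    (hm : ∀ x i j k l, M x i j * M x k l = M x i l * M x k j)
    (hs : ∀ x, ∑ i, ∑ j, (M x i j) ^ 2 = 1) :
    ∃ a : closedBall (0 : EuclideanSpace ℝ (Fin 3)) 1 → Fin 3 → ℂ, Continuous a ∧
      ∀ x i j, a x i * a x j = (M x * (M x)ᵀ) i j := by
  have hQ := fun x => rank_one (M x) (hm x) (hs x)
  have hQc : Continuous fun x => M x * (M x)ᵀ := hM.matrix_mul hM.matrix_transpose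
  obtain ⟨Q₀, g, ⟨x₀, hx₀⟩, hgc, hgd, hg⟩ :=
    ball_transport (fun x => M x * (M x)ᵀ) hQc (fun x => (hQ x).1)
  obtain ⟨v₀, hv₀, hv₀n⟩ : ∃ v₀ : Fin 3 → ℂ, Q₀.mulVec v₀ = v₀ ∧ v₀ ≠ 0 := by
    have h1 : Q₀ * Q₀ = Q₀ := by rw [← hx₀]; exact (hQ x₀).1
    have h2 : Q₀.trace = 1 := by rw [← hx₀]; exact (hQ x₀).2.1
    have h3 : Q₀ ≠ 0 := by
      rintro rfl
      simp at h2
    obtain ⟨w, hw⟩ : ∃ w, Q₀.mulVec w ≠ 0 := by
      by_contra hcon
      push Not at hcon
      apply h3
      ext i j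
      have := congrFun (hcon (Pi.single j 1)) i
      simpa using this
    exact ⟨Q₀.mulVec w, by rw [Matrix.mulVec_mulVec, h1], hw⟩
  obtain ⟨v, hv⟩ : ∃ v : closedBall (0 : EuclideanSpace ℝ (Fin 3)) 1 → Fin 3 → ℂ,
      v = fun x => (g x).mulVec v₀ := ⟨_, rfl⟩
  have hvc : Continuous v := by
    rw [hv]
    exact hgc.matrix_mulVec continuous_const
  have hvQ : ∀ x, (M x * (M x)ᵀ).mulVec (v x) = v x := by
    intro x
    rw [hv]
    show (M x * (M x)ᵀ).mulVec ((g x).mulVec v₀) = (g x).mulVec v₀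
    rw [Matrix.mulVec_mulVec, ← hg x, ← Matrix.mulVec_mulVec, hv₀]
  have hvn : ∀ x, v x ≠ 0 := by
    intro x h
    rw [hv] at h
    exact hv₀n (Matrix.eq_zero_of_mulVec_eq_zero (hgd x) h)
  have hvv : ∀ x i j, v x i * v x j = (∑ k, v x k * v x k) * (M x * (M x)ᵀ) i j :=
    fun x => (hQ x).2.2 (v x) (hvQ x)
  have hh : ∀ x, (∑ k, v x k * v x k) ≠ 0 := by
    intro x h
    apply hvn x
    funext i
    have := hvv x i i
    rw [h, zero_mul] at this
    simpa using mul_self_eq_zero.1 this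
  have hhc : Continuous fun x => ∑ k, v x k * v x k :=
    continuous_finsetSum _ fun k _ => ((continuous_apply k).comp hvc).mul ((continuous_apply k).comp hvc)
  obtain ⟨s, hsc, hss⟩ := exists_sqrt (fun y => ∑ k, v (ret y) k * v (ret y) k)
    (hhc.comp ret_continuous).continuousOn (fun y _ => hh (ret y))
  have hsc' : Continuous fun x : closedBall (0 : EuclideanSpace ℝ (Fin 3)) 1 =>
      s (x : EuclideanSpace ℝ (Fin 3)) := hsc.comp_continuous continuous_subtype_val (fun x => x.2)
  have hss' : ∀ x : closedBall (0 : EuclideanSpace ℝ (Fin 3)) 1,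
      s (x : EuclideanSpace ℝ (Fin 3)) ^ 2 = ∑ k, v x k * v x k := by
    intro x
    rw [hss x x.2, ret_sub]
  have hsn : ∀ x : closedBall (0 : EuclideanSpace ℝ (Fin 3)) 1,
      s (x : EuclideanSpace ℝ (Fin 3)) ≠ 0 := by
    intro x h
    apply hh x
    rw [← hss', h]
    simp
  refine ⟨fun x i => v x i / s x, ?_, ?_⟩
  · refine continuous_pi fun i => ?_
    exact ((continuous_apply i).comp hvc).div hsc' hsn
  · intro x i j
    have h1 := hvv x i j
    have h2 := hss' x
    have h3 := hsn x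
    rw [div_mul_div_comm, h1, ← h2, div_eq_iff (mul_ne_zero h3 h3)]
    ring

theorem re_ne_zero (a : Fin 3 → ℂ) (ha : ∑ k, a k * a k = 1) :
    (fun i => (a i).re) ≠ 0 := by
  intro h
  have h0 := congrFun h 0
  have h1 := congrFun h 1
  have h2 := congrFun h 2
  simp only [Pi.zero_apply] at h0 h1 h2
  have hr := congrArg Complex.re ha
  rw [Fin.sum_univ_three] at hr
  simp only [Complex.add_re, Complex.mul_re, h0, h1, h2, Complex.one_re] at hr
  nlinarith [sq_nonneg (a 0).im, sq_nonneg (a 1).im, sq_nonneg (a 2).im]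

theorem no_family (T : closedBall (0 : EuclideanSpace ℝ (Fin 3)) 1 → Matrix (Fin 4) (Fin 4) ℂ)
    (hT : Continuous T) (h1 : ∀ x, T x * T x = T x) (h2 : ∀ x, (T x)ᵀ = T x)
    (h3 : ∀ x, (T x).trace = 2)
    (h4 : ∀ x y : closedBall (0 : EuclideanSpace ℝ (Fin 3)) 1,
        ‖(x : EuclideanSpace ℝ (Fin 3))‖ = 1 → (y : EuclideanSpace ℝ (Fin 3)) = -x →
        T y = 1 - T x) : False := by
  obtain ⟨M, hMd⟩ : ∃ M : closedBall (0 : EuclideanSpace ℝ (Fin 3)) 1 → Matrix (Fin 3) (Fin 3) ℂ,
      M = fun x => MM (T x) := ⟨_, rfl⟩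
  have hMc : Continuous M := by rw [hMd]; exact MM_continuous.comp hT
  have hMm : ∀ x i j k l, M x i j * M x k l = M x i l * M x k j := by
    rw [hMd]; exact fun x => MM_minor _ (h1 x) (h2 x) (h3 x)
  have hMs : ∀ x, ∑ i, ∑ j, (M x i j) ^ 2 = 1 := by
    rw [hMd]; exact fun x => MM_sq _ (h1 x) (h2 x) (h3 x)
  obtain ⟨a, hac, ha⟩ := exists_lift M hMc hMm hMs
  have haa : ∀ x, ∑ k, a x k * a x k = 1 := by
    intro x
    have := (rank_one (M x) (hMm x) (hMs x)).2.1
    rw [Matrix.trace] at this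
    rw [← this]
    exact Finset.sum_congr rfl fun k _ => ha x k k
  obtain ⟨b, hbd⟩ : ∃ b : closedBall (0 : EuclideanSpace ℝ (Fin 3)) 1 → Fin 3 → ℂ,
      b = fun x => (M x)ᵀ.mulVec (a x) := ⟨_, rfl⟩
  have hbc : Continuous b := by
    rw [hbd]; exact hMc.matrix_transpose.matrix_mulVec hac
  have hbb : ∀ x, ∑ k, b x k * b x k = 1 := by
    intro x
    rw [hbd]
    exact bb_one (M x) (a x) (hMs x) (ha x)
  have hneg : ∀ x y : closedBall (0 : EuclideanSpace ℝ (Fin 3)) 1,
      ‖(x : EuclideanSpace ℝ (Fin 3))‖ = 1 → (y : EuclideanSpace ℝ (Fin 3)) = -x →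
        M y = - M x := by
    intro x y hx hy
    rw [hMd]
    show MM (T y) = - MM (T x)
    rw [h4 x y hx hy, MM_one_sub]
  have hrel : ∀ x y : closedBall (0 : EuclideanSpace ℝ (Fin 3)) 1,
      ‖(x : EuclideanSpace ℝ (Fin 3))‖ = 1 → (y : EuclideanSpace ℝ (Fin 3)) = -x →
        (∀ i, a y i * (∑ k, a y k * a x k) = a x i) ∧ (∑ k, a y k * a x k) ^ 2 = 1 := by
    intro x y hx hy
    have hq : ∀ i j, a y i * a y j = a x i * a x j := by
      intro i j
      rw [ha, ha, hneg x y hx hy, Matrix.transpose_neg, Matrix.neg_mul, Matrix.mul_neg, neg_neg]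
    have e1 : ∀ i, a y i * (∑ k, a y k * a x k) = a x i := by
      intro i
      rw [Finset.mul_sum]
      calc ∑ k, a y i * (a y k * a x k) = ∑ k, a x i * (a x k * a x k) := by
            refine Finset.sum_congr rfl fun k _ => ?_
            rw [← mul_assoc, hq, mul_assoc]
        _ = a x i := by rw [← Finset.mul_sum, haa, mul_one]
    refine ⟨e1, ?_⟩
    calc (∑ k, a y k * a x k) ^ 2 = ∑ k, (a y k * (∑ k, a y k * a x k)) * a x k := by
          rw [pow_two, Finset.sum_mul]
          refine Finset.sum_congr rfl fun k _ => ?_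
          ring
      _ = ∑ k, a x k * a x k := Finset.sum_congr rfl fun k _ => by rw [e1 k]
      _ = 1 := haa x
  -- the sign on the boundary sphere
  obtain ⟨e, hed⟩ : ∃ e : EuclideanSpace ℝ (Fin 3) → ℂ,
      e = fun y => ∑ k, a (ret (-y)) k * a (ret y) k := ⟨_, rfl⟩
  have hec : Continuous e := by
    rw [hed]
    refine continuous_finsetSum _ fun k _ => ?_
    exact ((continuous_apply k).comp (hac.comp (ret_continuous.comp continuous_neg))).mul
      ((continuous_apply k).comp (hac.comp ret_continuous))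
  have hne : ∀ y : EuclideanSpace ℝ (Fin 3), ‖y‖ = 1 →
      ‖((ret y : closedBall (0 : EuclideanSpace ℝ (Fin 3)) 1) : EuclideanSpace ℝ (Fin 3))‖ = 1 ∧
      ((ret (-y) : closedBall (0 : EuclideanSpace ℝ (Fin 3)) 1) : EuclideanSpace ℝ (Fin 3)) =
        -(ret y : EuclideanSpace ℝ (Fin 3)) := by
    intro y hy
    rw [ret_coe y hy.le, ret_coe (-y) (by rw [norm_neg]; exact hy.le)]
    exact ⟨hy, rfl⟩
  have hesq : ∀ y : EuclideanSpace ℝ (Fin 3), ‖y‖ = 1 → e y = 1 ∨ e y = -1 := by
    intro y hy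
    have := (hrel (ret y) (ret (-y)) (hne y hy).1 (hne y hy).2).2
    rw [hed]
    have h6 : (∑ k, a (ret (-y)) k * a (ret y) k - 1) * (∑ k, a (ret (-y)) k * a (ret y) k + 1) = 0 := by
      linear_combination this
    rcases mul_eq_zero.1 h6 with h | h
    · left; linear_combination h
    · right; linear_combination h
  have hconst : (∀ y : EuclideanSpace ℝ (Fin 3), ‖y‖ = 1 → e y = 1) ∨
      (∀ y : EuclideanSpace ℝ (Fin 3), ‖y‖ = 1 → e y = -1) := by
    by_contra hcon
    push Not at hcon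
    obtain ⟨⟨y1, hy1, he1⟩, ⟨y2, hy2, he2⟩⟩ := hcon
    have h5 : e y1 = -1 := (hesq y1 hy1).resolve_left he1
    have h6 : e y2 = 1 := (hesq y2 hy2).resolve_right he2
    have hpre : IsPreconnected (sphere (0 : EuclideanSpace ℝ (Fin 3)) 1) :=
      isPreconnected_sphere (by
        rw [rank_eq_card_basis (EuclideanSpace.basisFun (Fin 3) ℝ).toBasis]
        simp) 0 1
    have hI := hpre.intermediate_value (f := fun y => (e y).re)
      (mem_sphere_zero_iff_norm.2 hy1) (mem_sphere_zero_iff_norm.2 hy2)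
      (Complex.continuous_re.comp hec).continuousOn
    have h0 : (0 : ℝ) ∈ Set.Icc ((e y1).re) ((e y2).re) := by
      rw [h5, h6]; constructor <;> norm_num
    obtain ⟨y, hy, hy0⟩ := hI h0
    have hy' := mem_sphere_zero_iff_norm.1 hy
    rcases hesq y hy' with h | h
    · simp only [h] at hy0
      norm_num at hy0
    · simp only [h] at hy0
      norm_num at hy0
  have BU : ∀ f : (Fin 4 → ℝ) → (Fin 3 → ℝ), Continuous f → (∀ x, f (-x) = - f x) →
      ∃ x ∈ K 3, f x = 0 := fun f hf ho => Pool.Agent.Helper325.BorsukUlam.borsuk_ulam 3 f hf ho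
  rcases hconst with hpos | hmin
  · refine no_odd_ball BU (fun y i => (b (ret y) i).re) ?_ ?_ ?_
    · refine Continuous.continuousOn (continuous_pi fun i => ?_)
      exact Complex.continuous_re.comp ((continuous_apply i).comp (hbc.comp ret_continuous))
    · intro y hy
      obtain ⟨e1, -⟩ := hrel (ret y) (ret (-y)) (hne y hy).1 (hne y hy).2
      have h7 := hpos y hy
      rw [hed] at h7
      have h8 : a (ret (-y)) = a (ret y) := by
        funext i
        have := e1 i
        simp only at h7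
        rw [h7, mul_one] at this
        exact this
      have h9 : b (ret (-y)) = - b (ret y) := by
        rw [hbd]
        show (M (ret (-y)))ᵀ.mulVec (a (ret (-y))) = - (M (ret y))ᵀ.mulVec (a (ret y))
        rw [h8, hneg _ _ (hne y hy).1 (hne y hy).2, Matrix.transpose_neg, Matrix.neg_mulVec]
      funext i
      show (b (ret (-y)) i).re = - (b (ret y) i).re
      rw [h9]
      simp
    · intro y _
      exact re_ne_zero _ (hbb _)
  · refine no_odd_ball BU (fun y i => (a (ret y) i).re) ?_ ?_ ?_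
    · refine Continuous.continuousOn (continuous_pi fun i => ?_)
      exact Complex.continuous_re.comp ((continuous_apply i).comp (hac.comp ret_continuous))
    · intro y hy
      obtain ⟨e1, -⟩ := hrel (ret y) (ret (-y)) (hne y hy).1 (hne y hy).2
      have h7 := hmin y hy
      rw [hed] at h7
      simp only at h7
      funext i
      show (a (ret (-y)) i).re = - (a (ret y) i).re
      have := e1 i
      rw [h7] at this
      rw [← this]
      simp
    · intro y _
      exact re_ne_zero _ (haa _)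

theorem exists_singular_sym4 (S : Fin 5 → Matrix (Fin 4) (Fin 4) ℂ) (hS : ∀ i, (S i)ᵀ = S i) :
    ∃ w : Fin 5 → ℝ, w ≠ 0 ∧ (∑ i, (w i : ℂ) • S i).det = 0 := by
  by_contra hcon
  push Not at hcon
  have hS4 : (S 4).det ≠ 0 := by
    have := hcon (Pi.single 4 1) (by
      intro h
      have := congrFun h 4
      simp at this)
    have e : ∑ i, (((Pi.single 4 1 : Fin 5 → ℝ) i : ℝ) : ℂ) • S i = S 4 := by
      rw [Finset.sum_eq_single 4]
      · simp
      · intro b _ hb
        simp [Pi.single_apply, hb]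
      · simp
    rwa [e] at this
  obtain ⟨C, hC, hC4⟩ := exists_congr (S 4) (hS 4) hS4
  obtain ⟨T, t1, t2, t3, t4, t5⟩ := exists_T (fun i => Cᵀ * S i * C) (by
    intro i
    rw [Matrix.transpose_mul, Matrix.transpose_mul, hS, Matrix.transpose_transpose,
      Matrix.mul_assoc]) hC4 (by
    intro w hw h
    apply hcon w hw
    have e : ∑ i, (w i : ℂ) • (Cᵀ * S i * C) = Cᵀ * (∑ i, (w i : ℂ) • S i) * C := by
      rw [Matrix.mul_sum, Matrix.sum_mul]
      refine Finset.sum_congr rfl fun i _ => ?_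
      rw [Matrix.mul_smul, Matrix.smul_mul]
    rw [e, Matrix.det_mul, Matrix.det_mul, Matrix.det_transpose] at h
    rcases mul_eq_zero.1 h with h' | h'
    · rcases mul_eq_zero.1 h' with h'' | h''
      · exact absurd h'' hC
      · exact h''
    · exact absurd h' hC)
  exact no_family T t1 t2 t3 t4 t5

end Pool.Agent.Helper220.Q5
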